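import Pool.Agent.Helper71.AKE.Fin

/-!
# MP_65f174_lc, question Q2: the answer is yes, for all standard fragments

Let `(K, v)` and `(L, w)` be henselian valued fields of equal characteristic zero, and let `Φ` be a
standard fragment (`n ≥ 1` alternating blocks of quantifiers, the last one existential).  If
`Th_Φ(Kv) ⊆ Th_Φ(Lw)` and `Th_Φ(vK) ⊆ Th_Φ(wL)`, then `Th_Φ(K, v) ⊆ Th_Φ(L, w)` in the three-sorted
language.

The proof passes to ultrapowers, which have cross-sections of the valuation, and plays the
back-and-forth game with `n` moves with countable partial isomorphisms which commute with the
cross-sections and which preserve the formulas of the respective fragment about residues and values.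
Each move first extends the maps of the residue field and of the value group, by countable
saturation, and then the map of the valued fields, by a relative embedding theorem for henselian
valued fields of equal characteristic zero.

The definitions are in `Pool/Agent/Helper71/AKE/Defs.lean`.
-/

set_option autoImplicit false

universe u

namespace Pool.Agent.Results.MP_65f174_lc.TransferForAllFragments

open Pool.Agent.Helper71.AKE

/-- **Transfer for every standard fragment.**  For henselian valued fields `K`, `L` of residue
characteristic zero and every `n ≥ 1`: if the true sentences of the standard fragment with `n`
blocks about the residue field and about the value group of `K` are true in `L`, then so are the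
true sentences of this fragment about the three-sorted valued field `K`. -/
theorem result (K L : ValField.{u}) [CharZero K.k] [CharZero L.k] (hK : K.Henselian)
    (hL : L.Henselian) (n : ℕ) (hn : 1 ≤ n)
    (hres : Th (std n) (ringStr K.k) ⊆ Th (std n) (ringStr L.k))
    (hval : Th (std n) (oagStr K.G) ⊆ Th (std n) (oagStr L.G)) :
    Th (std n) (valStr K) ⊆ Th (std n) (valStr L) :=
  ake_std hK hL n hn hres hval

end Pool.Agent.Results.MP_65f174_lc.TransferForAllFragments
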